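import Pool.Agent.Lib.MP_88bd66_lcP.MainCr

/-!
For each of the four operators `HP`, `HPS`, `SHP`, `SHPS` and every finite class `Φ` of finite
semigroups, the completely regular semigroups with abelian subgroups in the kernel form a decidable
class; for finite classes `Φ` of such semigroups the kernel is decidable.
-/

set_option autoImplicit false

namespace Pool.Agent.Results.MP_88bd66_lc.AbelianCompletelyRegular

open Pool.Agent.Lib.MP_88bd66_lc Pool.Agent.Lib.MP_88bd66_lcP

theorem result (K : Set FinSgrp → Set FinSgrp)
    (hK : K = (fun C => opH (opP C)) ∨ K = (fun C => opH (opP (opS C))) ∨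
      K = (fun C => opS (opH (opP C))) ∨ K = (fun C => opS (opH (opP (opS C)))))
    (Φ : Set FinSgrp) (hΦ : FiniteClass Φ) :
    DecidableClass {M | M ∈ Cor K Φ ∧ CRAb M.carrier} ∧
      ((∀ S ∈ Φ, CRAb S.carrier) → DecidableClass (Cor K Φ)) :=
  main_cr K hK Φ hΦ

end Pool.Agent.Results.MP_88bd66_lc.AbelianCompletelyRegular
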