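import Pool.Agent.Lib.MP_88bd66_lcP.MainE

/-!
For each of the four operators `HP`, `HPS`, `SHP`, `SHPS` and every finite class `Φ` of finite
semigroups with commuting idempotents and abelian subgroups the kernel of `K Φ` is decidable.
-/

set_option autoImplicit false

namespace Pool.Agent.Results.MP_88bd66_lc.CommutingIdempotents

open Pool.Agent.Lib.MP_88bd66_lc Pool.Agent.Lib.MP_88bd66_lcP

theorem result (K : Set FinSgrp → Set FinSgrp)
    (hK : K = (fun C => opH (opP C)) ∨ K = (fun C => opH (opP (opS C))) ∨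
      K = (fun C => opS (opH (opP C))) ∨ K = (fun C => opS (opH (opP (opS C)))))
    (Φ : Set FinSgrp) (hΦ : FiniteClass Φ) (h : ∀ S ∈ Φ, CIAb S.carrier) :
    DecidableClass (Cor K Φ) :=
  main_ci K hK Φ hΦ h

end Pool.Agent.Results.MP_88bd66_lc.CommutingIdempotents
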