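import Pool.Agent.Lib.MP_88bd66_lc.Final

/-!
The kernels of `HP` and `HPS` are decidable for every finite class of finite semigroups.
-/

set_option autoImplicit false

namespace Pool.Agent.Results.MP_88bd66_lc.DecidableHPandHPS

open Pool.Agent.Lib.MP_88bd66_lc

theorem result (K : Set FinSgrp → Set FinSgrp)
    (hK : K = (fun C => opH (opP C)) ∨ K = (fun C => opH (opP (opS C)))) (Φ : Set FinSgrp)
    (hΦ : FiniteClass Φ) : DecidableClass (Cor K Φ) :=
  main K hK Φ hΦ

end Pool.Agent.Results.MP_88bd66_lc.DecidableHPandHPS
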