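import Pool.Agent.Lib.MP_88bd66_lcP.Main

/-!
For each of the four operators `HP`, `HPS`, `SHP`, `SHPS`, every finite class `Φ` of finite
semigroups and every nontrivial permutation identity, the members of the kernel which satisfy the
permutation identity form a decidable class.
-/

set_option autoImplicit false

namespace Pool.Agent.Results.MP_88bd66_lc.PermutativeKernels

open Pool.Agent.Lib.MP_88bd66_lc Pool.Agent.Lib.MP_88bd66_lcP

theorem result (K : Set FinSgrp → Set FinSgrp)
    (hK : K = (fun C => opH (opP C)) ∨ K = (fun C => opH (opP (opS C))) ∨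
      K = (fun C => opS (opH (opP C))) ∨ K = (fun C => opS (opH (opP (opS C)))))
    (Φ : Set FinSgrp) (hΦ : FiniteClass Φ) {n : ℕ} (π : Equiv.Perm (Fin n)) (hπ : π ≠ 1) :
    DecidableClass {M | M ∈ Cor K Φ ∧ PermId π M.carrier} ∧
      ((∀ S ∈ Φ, PermId π S.carrier) → DecidableClass (Cor K Φ)) :=
  main_perm K hK Φ hΦ π hπ

end Pool.Agent.Results.MP_88bd66_lc.PermutativeKernels
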